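import Pool.Agent.PrimeLinC.Main

/-!
# Non-vanishing of the odd-composite Hankel determinants, with gaps `3 N log N`

The matrix `oddComp n` is the matrix `M_n` of the problem.
-/

open Matrix

namespace Pool.Agent.Results.MP_fe83f7_nt.LogGaps

/-- The matrix `M_n`: the entry at `(i, j)`, for `i, j` in `1, …, n`, is `1` if `i + j = 2` or
`i + j` is an odd composite number (odd, at least `9`, not prime), and `0` otherwise. -/
def oddComp (n : ℕ) : Matrix (Fin n) (Fin n) ℤ := Matrix.of fun i j =>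
  if (i + 1 : ℕ) + (j + 1 : ℕ) = 2 ∨
      (Odd ((i + 1 : ℕ) + (j + 1 : ℕ)) ∧ 9 ≤ (i + 1 : ℕ) + (j + 1 : ℕ) ∧
        ¬ ((i + 1 : ℕ) + (j + 1 : ℕ)).Prime) then 1 else 0

theorem oddComp_map (n : ℕ) :
    (oddComp n).map (Int.cast : ℤ → ℚ) = PrimeLinC.hank PrimeLinC.entry n := by
  ext i j
  rw [Matrix.map_apply, oddComp, PrimeLinC.hank, Matrix.of_apply, Matrix.of_apply,
    PrimeLinC.entry]
  have e : (i + 1 : ℕ) + (j + 1 : ℕ) = (i + j : ℕ) + 2 := by ring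
  rw [e]
  split_ifs <;> simp

theorem det_ne {n : ℕ} (h : (PrimeLinC.hank PrimeLinC.entry n).det ≠ 0) :
    (oddComp n).det ≠ 0 := by
  intro h0
  apply h
  rw [← oddComp_map]
  have h1 := (Int.cast_det (R := ℚ) (oddComp n)).symm
  rw [h0, Int.cast_zero] at h1
  exact h1

/-- There is an `N₀` such that for every `N ≥ N₀` and for both parities `e` some `n` of parity `e`
with `N < n ≤ 3 N log N` has `det M_n ≠ 0`. -/
theorem result : ∃ N₀ : ℕ, ∀ N : ℕ, N₀ ≤ N → ∀ e < 2, ∃ n : ℕ, n % 2 = e ∧ N < n ∧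
    (n : ℝ) ≤ 3 * N * Real.log N ∧ (oddComp n).det ≠ 0 := by
  obtain ⟨N₀, h⟩ := PrimeLinC.det_ne_zero
  refine ⟨N₀, fun N hN e he => ?_⟩
  obtain ⟨n, hn1, hn2, hn3, hn4⟩ := h N hN e he
  exact ⟨n, hn1, hn2, hn3, det_ne hn4⟩

end Pool.Agent.Results.MP_fe83f7_nt.LogGaps
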